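import Mathlib
import Pool.Agent.H101R.Qd.Last

/-!
# Doubly transitive homomorphisms of quandles have no fiber with six elements

In particular the trivial quandle of order `6` is not a fiber of a doubly transitive homomorphism.
-/

set_option autoImplicit false

namespace Pool.Agent.Results.MP_4dd1f4_al.NoFiberOfSixElements

open Equiv

/-- A quandle, given by its permutations `s x`. -/
def IsQuandle {P : Type*} (s : P → Perm P) : Prop :=
  (∀ x, s x x = x) ∧ ∀ x y, s x * s y = s (s x y) * s x

/-- A homomorphism of quandles. -/
def IsHom {P Q : Type*} (s : P → Perm P) (t : Q → Perm Q) (f : P → Q) : Prop :=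
  ∀ x y, f (s x y) = t (f x) (f y)

/-- The inner automorphism group. -/
def Inn {P : Type*} (s : P → Perm P) : Subgroup (Perm P) := Subgroup.closure (Set.range s)

/-- The members of the relative inner automorphism group of `f`: the inner automorphisms that map
every fiber of `f` to itself. -/
def RelInn {P Q : Type*} (s : P → Perm P) (f : P → Q) : Set (Perm P) :=
  {g | g ∈ Inn s ∧ ∀ x, f (g x) = f x}

/-- The homomorphism is doubly transitive: it is surjective, and its relative inner automorphism
group acts doubly transitively on every fiber. -/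
def DoublyTransitive {P Q : Type*} (s : P → Perm P) (f : P → Q) : Prop :=
  Function.Surjective f ∧
    ∀ q : Q, ∀ a b c d : P, f a = q → f b = q → f c = q → f d = q → a ≠ b → c ≠ d →
      ∃ g ∈ RelInn s f, g a = c ∧ g b = d

/-- No fiber of a doubly transitive homomorphism of quandles has exactly six elements. -/
theorem result {P Q : Type*} (s : P → Perm P) (t : Q → Perm Q) (f : P → Q) (hs : IsQuandle s)
    (_ht : IsQuandle t) (hf : IsHom s t f) (h2 : DoublyTransitive s f) (q : Q) :
    Nat.card {x : P // f x = q} ≠ 6 := by
  intro h6
  refine Pool.Agent.H101R.Qd.no_six s t f ?_ hs.1 hf ?_ q h6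
  · intro x y z
    have := congrArg (fun p : Perm P => p z) (hs.2 x y)
    exact this
  · intro r a b c d hab hcd
    obtain ⟨g, hg, h3, h4⟩ := h2.2 r a.1 b.1 c.1 d.1 a.2 b.2 c.2 d.2
      (fun h => hab (Subtype.ext h)) (fun h => hcd (Subtype.ext h))
    exact ⟨⟨g, hg⟩, Subtype.ext h3, Subtype.ext h4⟩

end Pool.Agent.Results.MP_4dd1f4_al.NoFiberOfSixElements
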